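import Pool.Agent.H4.Main

/-!
# MP_7e41f2_co : 4-homogeneous latin squares of all sufficiently large orders

Definitions (`IsLatinSquare`, `IsIntercalate`, `IsHomogeneous`) are in `Pool.Agent.H4.Basic`.
-/

namespace Pool.Agent.Results.MP_7e41f2_co.AllLargeOrders

open Pool.Agent.H4

/-- There is a 4-homogeneous latin square of every sufficiently large order. -/
theorem result : ∃ N₀ : ℕ, ∀ n : ℕ, N₀ ≤ n →
    ∃ L : Fin n → Fin n → Fin n, IsLatinSquare L ∧ IsHomogeneous 4 L :=
  main

end Pool.Agent.Results.MP_7e41f2_co.AllLargeOrders
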