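import Pool.Agent.H4.CubeMul

/-!
# MP_7e41f2_co : 4-homogeneous latin squares whose order is divisible by the cube of an odd prime

Definitions (`IsLatinSquare`, `IsIntercalate`, `IsHomogeneous`) are in `Pool.Agent.H4.Basic`.
-/

namespace Pool.Agent.Results.MP_7e41f2_co.CubeOrders

open Pool.Agent.H4

/-- If `n > 0` is divisible by the cube of an odd prime `p` and `n ≠ 2 p ^ 3, 4 p ^ 3`, then there is
a 4-homogeneous latin square of order `n`. -/
theorem result : ∀ n p : ℕ, 0 < n → p.Prime → p ≠ 2 → p ^ 3 ∣ n → n ≠ 2 * p ^ 3 → n ≠ 4 * p ^ 3 →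
    ∃ L : Fin n → Fin n → Fin n, IsLatinSquare L ∧ IsHomogeneous 4 L := by
  rintro n p - hp hp2 ⟨m, rfl⟩ h2 h4
  refine ord4_cube_mul hp hp2 ?_ ?_
  · rintro rfl
    exact h2 (mul_comm _ _)
  · rintro rfl
    exact h4 (mul_comm _ _)

end Pool.Agent.Results.MP_7e41f2_co.CubeOrders
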